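import Mathlib

set_option autoImplicit false

open Finset Matrix

namespace Pool.Agent.H.MP_b24dd2_co

variable {n : Type} [Fintype n] [DecidableEq n]

lemma spec (G : Matrix n n ℝ) (hG : G.IsHermitian) {μ m : ℝ} (h0 : 0 < μ) (hm : 0 < m)
    (eig : ∀ (z : n → ℝ) (η : ℝ), z ≠ 0 → G *ᵥ z = η • z → μ ≤ η)
    (tr : G.trace = Fintype.card n * m) :
    ∃ H : Matrix n n ℝ, G * H = 1 ∧ Fintype.card n / m ≤ H.trace ∧ H.trace ≤ Fintype.card n / m +
      ((G - m • (1 : Matrix n n ℝ)) * (G - m • (1 : Matrix n n ℝ))).trace / (m ^ 2 * μ) := by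
  set U : Matrix n n ℝ := hG.eigenvectorUnitary.1
  have u1 : star U * U = 1 := hG.eigenvectorUnitary.2.1
  have u2 : U * star U = 1 := hG.eigenvectorUnitary.2.2
  let M : (n → ℝ) → Matrix n n ℝ := fun f => U * diagonal f * star U
  have mul : ∀ f g, M f * M g = M (fun i => f i * g i) := by
    intro f g
    simp only [M]
    rw [← diagonal_mul_diagonal]
    calc _ = U * diagonal f * (star U * U) * diagonal g * star U := by simp only [Matrix.mul_assoc]
      _ = _ := by rw [u1]; simp only [Matrix.mul_assoc, Matrix.mul_one]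
  have trc : ∀ f, (M f).trace = ∑ i, f i := by
    intro f
    simp only [M]
    rw [trace_mul_cycle, u1, Matrix.one_mul, trace_diagonal]
  set ν := hG.eigenvalues
  have e : G = M ν := by
    have := hG.spectral_theorem
    rw [Unitary.conjStarAlgAut_apply] at this
    exact this
  have l : ∀ i, μ ≤ ν i := fun i => eig _ _
    (fun h => hG.eigenvectorBasis.orthonormal.ne_zero i (by ext j; exact congrFun h j))
    (hG.mulVec_eigenvectorBasis i)
  have p : ∀ i, 0 < ν i := fun i => h0.trans_le (l i)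
  have one : M (fun _ => 1) = 1 := by simp [M, u2]
  have sub : G - m • (1 : Matrix n n ℝ) = M fun i => ν i - m := by
    rw [e, ← one]
    simp only [M]
    rw [← Matrix.smul_mul, ← Matrix.mul_smul, ← Matrix.sub_mul, ← Matrix.mul_sub]
    congr 2
    ext i j; by_cases h : i = j <;> simp [h]
  have s0 : ∑ i, (ν i - m) = 0 := by
    rw [e, trc] at tr
    simp [sum_sub_distrib, tr]
  have id : ∑ i, 1 / ν i = Fintype.card n / m + ∑ i, (ν i - m) * (ν i - m) / (m ^ 2 * ν i) := by
    have : ∀ i, 1 / ν i = 1 / m - (ν i - m) / m ^ 2 + (ν i - m) * (ν i - m) / (m ^ 2 * ν i) := by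
      intro i; have := p i; field_simp; ring
    simp only [this, sum_add_distrib, sum_sub_distrib, ← sum_div, s0]
    simp [div_eq_mul_inv]
  refine ⟨M fun i => 1 / ν i, ?_, ?_, ?_⟩
  · rw [e, mul, ← one]; congr 1; ext i; have := p i; field_simp
  · rw [trc, id]
    exact le_add_of_nonneg_right (sum_nonneg fun i _ =>
      div_nonneg (mul_self_nonneg _) (by have := p i; positivity))
  · rw [trc, id, sub, mul, trc, sum_div]
    refine add_le_add le_rfl (sum_le_sum fun i _ => ?_)
    exact div_le_div_of_nonneg_left (mul_self_nonneg _) (by positivity) (by gcongr; exact l i)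

lemma fin (Λ : Matrix n n ℝ) (hs : ∀ a c, Λ a c = Λ c a) {R r ℓ μ S v : ℝ} (hv : v = Fintype.card n)
    (v1 : 1 < v) (R0 : 0 < R) (l0 : 0 < ℓ) (h0 : 0 < μ) (h1 : μ ≤ ℓ * v) (hl : R - r = ℓ * (v - 1))
    (row : ∀ a, ∑ c, Λ a c = R) (dg : ∀ a, Λ a a = r)
    (eig : ∀ (z : n → ℝ) (η : ℝ), z ≠ 0 → ∑ a, z a = 0 → Λ *ᵥ z = η • z → μ ≤ R - η)
    (hS : ∑ a, ∑ c ∈ univ.erase a, (Λ a c - ℓ) ^ 2 ≤ S) :
    ((1 : Matrix n n ℝ) - (1 / R) • Λ + (1 / v) • Matrix.of (fun _ _ => (1 : ℝ))).det ≠ 0 ∧
    0 < ((1 : Matrix n n ℝ) - (1 / R) • Λ + (1 / v) • Matrix.of (fun _ _ => (1 : ℝ)))⁻¹.trace - 1 ∧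
    ((1 : Matrix n n ℝ) - (1 / R) • Λ + (1 / v) • Matrix.of (fun _ _ => (1 : ℝ)))⁻¹.trace - 1 ≤
      R * ((v - 1) / (ℓ * v) + S / ((ℓ * v) ^ 2 * μ)) := by
  have v0 : 0 < v := by linarith
  set J : Matrix n n ℝ := Matrix.of (fun _ _ => (1 : ℝ))
  set G : Matrix n n ℝ := R • 1 - Λ + ℓ • J with hG
  have m0 : 0 < ℓ * v := by positivity
  have col : ∀ c, ∑ a, Λ a c = R := fun c => by simp only [hs _ c, row]
  obtain ⟨H, a1, a2, a3⟩ := spec G (by
      ext a c; by_cases h : a = c <;> simp [G, J, hs a c, h, one_apply, eq_comm]) h0 m0 (by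
      intro z η z0 hz
      have t : ∀ a, R * z a - (Λ *ᵥ z) a + ℓ * ∑ c, z c = η * z a := fun a => by
        have := congrFun hz a
        rw [hG, add_mulVec, sub_mulVec, smul_mulVec, smul_mulVec, one_mulVec] at this
        simpa [J, mulVec, dotProduct] using this
      have t2 : ∑ a, (Λ *ᵥ z) a = R * ∑ c, z c := by
        simp only [mulVec, dotProduct]
        rw [sum_comm]; simp only [← sum_mul, col, mul_sum]
      by_cases h : ∑ c, z c = 0
      · have := eig z (R - η) z0 h (by
          ext a; have := t a; rw [h] at this; simp only [Pi.smul_apply, smul_eq_mul]; linarith)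
        linarith
      · have := sum_congr (s₁ := univ) rfl fun a _ => t a
        simp only [sum_add_distrib, sum_sub_distrib, ← mul_sum, t2, sum_const, card_univ,
          nsmul_eq_mul, ← hv] at this
        have : (ℓ * v - η) * ∑ c, z c = 0 := by linarith
        have := (mul_eq_zero.1 this).resolve_right h
        linarith) (by
      simp only [G, J, trace, Matrix.diag, Matrix.add_apply, Matrix.sub_apply, Matrix.smul_apply,
        one_apply_eq, dg, of_apply, sum_const, card_univ, nsmul_eq_mul, ← hv, smul_eq_mul]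
      congr 1; linarith)
  have GJ : J * G = (ℓ * v) • J := by
    ext a c
    simp [G, J, mul_apply, sum_add_distrib, sum_sub_distrib, col, one_apply, ← hv, mul_comm]
  have JJ : J * J = v • J := by ext a c; simp [J, mul_apply, hv]
  have GJ' : G * J = (ℓ * v) • J := by
    ext a c
    simp [G, J, mul_apply, sum_add_distrib, sum_sub_distrib, row, one_apply, ← hv, mul_comm]
  have JH : J * H = (1 / (ℓ * v)) • J := by
    have : J * G * H = J := by rw [Matrix.mul_assoc, a1, Matrix.mul_one]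
    rw [GJ, Matrix.smul_mul] at this
    calc J * H = (1 / (ℓ * v)) • (ℓ * v) • (J * H) := by
          rw [smul_smul, one_div_mul_cancel m0.ne', one_smul]
      _ = _ := by rw [this]
  have eA : (1 : Matrix n n ℝ) - (1 / R) • Λ + (1 / v) • J =
      (1 / R) • G + ((1 - ℓ * v / R) / v) • J := by
    rw [hG]; ext a c; simp; field_simp; ring
  have inv : ((1 / R) • G + ((1 - ℓ * v / R) / v) • J) *
      (R • H + ((1 - R / (ℓ * v)) / v) • J) = 1 := by
    simp only [Matrix.add_mul, Matrix.mul_add, Matrix.smul_mul, Matrix.mul_smul, a1, GJ', JH, JJ,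
      smul_smul]
    ext a c; simp; field_simp; ring
  rw [eA, inv_eq_right_inv inv]
  have tJ : J.trace = v := by simp [J, trace, hv]
  have tS : ((G - (ℓ * v) • (1 : Matrix n n ℝ)) * (G - (ℓ * v) • (1 : Matrix n n ℝ))).trace =
      ∑ a, ∑ c ∈ univ.erase a, (Λ a c - ℓ) ^ 2 := by
    simp only [trace, Matrix.diag, mul_apply]
    refine sum_congr rfl fun a _ => ?_
    rw [← add_sum_erase _ _ (mem_univ a)]
    have : (G - (ℓ * v) • (1 : Matrix n n ℝ)) a a = 0 := by simp [G, J, dg]; linarith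
    rw [this, mul_zero, zero_add]
    refine sum_congr rfl fun c hc => ?_
    have := (mem_erase.1 hc).1
    simp [G, J, this, this.symm, hs c a]; ring
  rw [tS, ← hv] at a3
  rw [← hv] at a2
  have e : (R • H + ((1 - R / (ℓ * v)) / v) • J).trace - 1 = R * (H.trace - 1 / (ℓ * v)) := by
    rw [trace_add, trace_smul, trace_smul, tJ]; simp; field_simp; ring
  have e2 : (v - 1) / (ℓ * v) = v / (ℓ * v) - 1 / (ℓ * v) := sub_div _ _ _
  have e3 : 0 < (v - 1) / (ℓ * v) := div_pos (by linarith) m0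
  refine ⟨(isUnit_det_of_right_inverse inv).ne_zero, ?_, ?_⟩
  · rw [e]; exact mul_pos R0 (by linarith)
  · rw [e]
    refine mul_le_mul_of_nonneg_left ?_ R0.le
    have := div_le_div_of_nonneg_right hS (show 0 ≤ (ℓ * v) ^ 2 * μ by positivity)
    linarith

end Pool.Agent.H.MP_b24dd2_co
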