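import Pool.Agent.H.MP_b24dd2_co.A

set_option autoImplicit false

open Finset Matrix

namespace Pool.Agent.H.MP_b24dd2_co

variable {V B : Type} [Fintype V] [DecidableEq V] [Fintype B] [DecidableEq B]

structure Des (r k : ℝ) (N : Matrix V B ℝ) : Prop where
  bin : ∀ i j, N i j = 0 ∨ N i j = 1
  row : ∀ i, ∑ j, N i j = r
  col : ∀ j, ∑ i, N i j = k

def Lam (N : Matrix V B ℝ) : Matrix V V ℝ := fun a c => ∑ j, N a j * N c j

def Phi (N : Matrix V B ℝ) : ℝ := ∑ a, ∑ c, Lam N a c ^ 2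

omit [Fintype V] [DecidableEq V] [DecidableEq B] in
lemma Lam_symm (N : Matrix V B ℝ) (a c : V) : Lam N a c = Lam N c a := by
  simp [Lam, mul_comm]

omit [DecidableEq V] [DecidableEq B] in
lemma Des.dg {r k : ℝ} {N : Matrix V B ℝ} (h : Des r k N) (a : V) : Lam N a a = r := by
  rw [← h.row a]
  exact sum_congr rfl fun j _ => by rcases h.bin a j with e | e <;> simp [e]

omit [DecidableEq V] [DecidableEq B] in
lemma Des.rs {r k : ℝ} {N : Matrix V B ℝ} (h : Des r k N) (a : V) : ∑ c, Lam N a c = r * k := by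
  simp only [Lam]
  rw [sum_comm]
  simp only [← mul_sum, h.col, ← sum_mul, h.row]

omit [DecidableEq V] [DecidableEq B] in
lemma Des.nn {r k : ℝ} {N : Matrix V B ℝ} (h : Des r k N) (a c : V) : 0 ≤ Lam N a c :=
  sum_nonneg fun j _ => by rcases h.bin a j with e | e <;> rcases h.bin c j with e' | e' <;> simp [e, e']

lemma er1 (f : V → ℝ) (a : V) (h : f a = 0) : ∑ x, f x = ∑ x ∈ univ.erase a, f x :=
  (sum_erase _ h).symm

lemma er2 (f : V → ℝ) (a c : V) (h : f a = 0) (h' : f c = 0) :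
    ∑ x, f x = ∑ x ∈ (univ.erase a).erase c, f x := by rw [sum_erase _ h', sum_erase _ h]

lemma swap {r k : ℝ} {N : Matrix V B ℝ} (h : Des r k N) (m : ∀ M : Matrix V B ℝ, Des r k M → Phi N ≤ Phi M)
    {a c : V} (ac : a ≠ c) {j j' : B} (h1 : N a j = 1) (h2 : N c j = 0) (h3 : N a j' = 0)
    (h4 : N c j' = 1) :
    ∑ x ∈ (univ.erase a).erase c, (Lam N a x - Lam N c x) * (N x j - N x j') ≤ 2 * (k - 1) := by
  have jj : j ≠ j' := fun e => by rw [e, h3] at h1; exact zero_ne_one h1
  let w : V → ℝ := fun x => (if x = a then 1 else 0) - if x = c then 1 else 0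
  let y : B → ℝ := fun x => (if x = j then 1 else 0) - if x = j' then 1 else 0
  let u : V → ℝ := fun x => N x j - N x j' - w x
  have sw : ∀ f : V → ℝ, ∑ x, f x * w x = f a - f c := fun f => by
    simp [w, mul_sub, sum_sub_distrib]
  have sy : ∀ f : B → ℝ, ∑ x, f x * y x = f j - f j' := fun f => by
    simp [y, mul_sub, sum_sub_distrib]
  have ua : u a = 0 := by simp [u, w, h1, h3, ac]
  have uc : u c = 0 := by simp [u, w, h2, h4, ac.symm]
  have w2 : ∑ x, w x * w x = 2 := by rw [sw]; simp [w, ac, ac.symm]; norm_num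
  have y2 : ∑ x, y x * y x = 2 := by rw [sy]; simp [y, jj, jj.symm]; norm_num
  have wu : ∑ x, u x * w x = 0 := by rw [sw, ua, uc, sub_zero]
  have d : Des r k (Matrix.of fun x i => N x i - w x * y i) := by
    refine ⟨fun x i => ?_, fun x => ?_, fun i => ?_⟩
    · have := h.bin x i
      simp only [of_apply, w, y]
      by_cases e1 : x = a <;> by_cases e2 : x = c <;> by_cases e3 : i = j <;> by_cases e4 : i = j' <;>
        simp_all
    · simp only [of_apply, sum_sub_distrib, h.row]; rw [sy fun _ => w x]; ring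
    · simp only [of_apply, sum_sub_distrib, h.col, mul_comm (w _)]; rw [sw fun _ => y i]; ring
  have l : ∀ x x', Lam (Matrix.of fun x i => N x i - w x * y i) x x' =
      Lam N x x' - (w x * u x' + u x * w x') := by
    intro x x'
    have : ∀ i, (N x i - w x * y i) * (N x' i - w x' * y i) = N x i * N x' i - w x * (N x' i * y i)
        - w x' * (N x i * y i) + w x * w x' * (y i * y i) := fun i => by ring
    simp only [Lam, of_apply, this, sum_add_distrib, sum_sub_distrib, ← mul_sum, sy (N _), y2, u]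
    ring
  have := m _ d
  have e : ∀ x x', (Lam N x x' - (w x * u x' + u x * w x')) ^ 2 = Lam N x x' ^ 2 -
      2 * (Lam N x x' * u x' * w x) - 2 * (u x * (Lam N x' x * w x')) +
      (w x * w x * (u x' * u x') + u x * u x * (w x' * w x') + 2 * (u x * w x * (u x' * w x'))) := by
    intro x x'; rw [Lam_symm N x' x]; ring
  simp only [Phi, l, e, sum_add_distrib, sum_sub_distrib, ← mul_sum, ← sum_mul, w2, wu] at this
  rw [sw fun x => ∑ x', Lam N x x' * u x'] at this
  simp only [sw fun x' => Lam N x' _] at this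
  have u2 : ∑ x, u x * u x ≤ 2 * (k - 1) := by
    have : ∀ x ∈ univ, u x * u x ≤ N x j + N x j' - w x * w x := by
      intro x _
      by_cases e1 : x = a
      · rw [e1, ua]; simp [w, h1, h3, ac]
      by_cases e2 : x = c
      · rw [e2, uc]; simp [w, h2, h4, ac.symm]
      rcases h.bin x j with e | e <;> rcases h.bin x j' with e' | e' <;> simp [u, w, e1, e2, e, e']
    have := sum_le_sum this
    simp only [sum_add_distrib, sum_sub_distrib, h.col, w2] at this
    linarith
  have e1 : ∑ x ∈ (univ.erase a).erase c, (Lam N a x - Lam N c x) * (N x j - N x j') =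
      ∑ x, (Lam N a x - Lam N c x) * u x := by
    refine Eq.trans (sum_congr rfl fun x hx => ?_)
      (er2 _ a c (by simp only [ua, mul_zero]) (by simp only [uc, mul_zero])).symm
    simp [u, w, (mem_erase.1 hx).1, (mem_erase.1 (mem_erase.1 hx).2).1]
  have e2 : ∑ x, u x * (Lam N a x - Lam N c x) = ∑ x, (Lam N a x - Lam N c x) * u x := by
    simp only [mul_comm]
  have e3 : ∑ x, Lam N a x * u x - ∑ x, Lam N c x * u x = ∑ x, (Lam N a x - Lam N c x) * u x := by
    simp only [sub_mul, sum_sub_distrib]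
  rw [e1]
  linarith

lemma key {r k : ℝ} {N : Matrix V B ℝ} (h : Des r k N) (m : ∀ M : Matrix V B ℝ, Des r k M → Phi N ≤ Phi M)
    (hk : 1 ≤ k) {a c : V} (ac : a ≠ c) :
    ∑ x ∈ (univ.erase a).erase c, (Lam N a x - Lam N c x) ^ 2 ≤ 2 * (r * k - r) := by
  let p : B → ℝ := fun j => N a j * (1 - N c j)
  let q : B → ℝ := fun j => N c j * (1 - N a j)
  set s := r - Lam N a c
  have sp : ∑ j, p j = s := by simp [p, mul_sub, sum_sub_distrib, h.row, s, Lam]
  have sq : ∑ j, q j = s := by simp [q, mul_sub, sum_sub_distrib, h.row, s, Lam, mul_comm]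
  have p0 : ∀ j, 0 ≤ p j := fun j => by
    rcases h.bin a j with e | e <;> rcases h.bin c j with e' | e' <;> simp [p, e, e']
  have q0 : ∀ j, 0 ≤ q j := fun j => by
    rcases h.bin a j with e | e <;> rcases h.bin c j with e' | e' <;> simp [q, e, e']
  have T : ∀ x, Lam N a x - Lam N c x = ∑ j, p j * N x j - ∑ j, q j * N x j := fun x => by
    simp only [Lam, ← sum_sub_distrib, p, q]
    exact sum_congr rfl fun j _ => by ring
  have s0 : 0 ≤ s := sp ▸ sum_nonneg fun j _ => p0 j
  have sr : s ≤ r := sub_le_self _ (h.nn a c)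
  have a1 : ∀ j j', p j * q j' * ∑ x ∈ (univ.erase a).erase c,
      (Lam N a x - Lam N c x) * (N x j - N x j') ≤ p j * q j' * (2 * (k - 1)) := by
    intro j j'
    rcases h.bin a j with e1 | e1 <;> rcases h.bin c j with e2 | e2 <;>
      rcases h.bin a j' with e3 | e3 <;> rcases h.bin c j' with e4 | e4 <;>
      simp only [p, q, e1, e2, e3, e4] <;> try simp
    simpa using swap h m ac e1 e2 e3 e4
  have a2 := sum_le_sum fun j (_ : j ∈ univ) => sum_le_sum fun j' (_ : j' ∈ univ) => a1 j j'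
  have a3 : ∑ j, ∑ j', p j * q j' * ∑ x ∈ (univ.erase a).erase c,
      (Lam N a x - Lam N c x) * (N x j - N x j') =
      s * ∑ x ∈ (univ.erase a).erase c, (Lam N a x - Lam N c x) ^ 2 := by
    simp only [mul_sum]
    rw [sum_congr rfl fun j _ => sum_comm, sum_comm]
    refine sum_congr rfl fun x _ => ?_
    have : ∀ j j', p j * q j' * ((Lam N a x - Lam N c x) * (N x j - N x j')) =
        (Lam N a x - Lam N c x) * (p j * N x j * q j') -
          (Lam N a x - Lam N c x) * (p j * (q j' * N x j')) := fun j j' => by ring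
    simp only [this, sum_sub_distrib, ← mul_sum, ← sum_mul, sp, sq]
    rw [pow_two]
    nth_rewrite 4 [T x]
    ring
  rw [a3] at a2
  simp only [← sum_mul, ← mul_sum, sp, sq] at a2
  rcases s0.eq_or_lt with e | e
  · have pz := (sum_eq_zero_iff_of_nonneg fun j _ => p0 j).1 (sp.trans e.symm)
    have qz := (sum_eq_zero_iff_of_nonneg fun j _ => q0 j).1 (sq.trans e.symm)
    rw [sum_eq_zero fun x _ => by
      rw [T, sum_eq_zero fun j hj => by rw [pz j hj, zero_mul],
        sum_eq_zero fun j hj => by rw [qz j hj, zero_mul]]; simp]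
    nlinarith
  · have := le_of_mul_le_mul_left (a2.trans_eq (mul_assoc _ _ _)) e
    nlinarith

lemma vr {ι : Type} (E : Finset ι) (y : ι → ℝ) (z : ∑ c ∈ E, y c = 0) :
    ∑ a ∈ E, ∑ c ∈ E, (y a ^ 2 + y c ^ 2 - 2 * (y a * y c)) = 2 * #E * ∑ c ∈ E, y c ^ 2 := by
  simp only [sum_add_distrib, sum_sub_distrib, ← mul_sum, z, sum_const, nsmul_eq_mul]
  simp
  ring

omit [DecidableEq B] in
lemma Sbd {r k ℓ v : ℝ} {N : Matrix V B ℝ} (h : Des r k N) (hv : v = Fintype.card V) (v1 : 1 < v)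
    (hl : r * k - r = ℓ * (v - 1)) (K : ∀ a c, a ≠ c →
      ∑ x ∈ (univ.erase a).erase c, (Lam N a x - Lam N c x) ^ 2 ≤ 2 * (r * k - r)) :
    ∑ a, ∑ c ∈ univ.erase a, (Lam N a c - ℓ) ^ 2 ≤ v * (r * k - r) := by
  have c : ∀ x : V, (#(univ.erase x) : ℝ) = v - 1 := fun x => by
    rw [card_erase_of_mem (mem_univ _), card_univ, Nat.cast_sub (Fintype.card_pos_iff.2 ⟨x⟩), hv]
    simp
  let g : V → V → V → ℝ := fun x a c => if a ≠ x ∧ c ≠ x then (Lam N a x - Lam N c x) ^ 2 else 0
  have e1 : ∀ x, ∑ a, ∑ c, g x a c = 2 * (v - 1) * ∑ c ∈ univ.erase x, (Lam N x c - ℓ) ^ 2 := by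
    intro x
    have z : ∑ c ∈ univ.erase x, (Lam N x c - ℓ) = 0 := by
      rw [sum_sub_distrib, sum_const, nsmul_eq_mul, c, sum_erase_eq_sub (mem_univ _), h.rs, h.dg]
      linarith
    have : ∑ a, ∑ c, g x a c = ∑ a ∈ univ.erase x, ∑ c ∈ univ.erase x, ((Lam N x a - ℓ) ^ 2 +
        (Lam N x c - ℓ) ^ 2 - 2 * ((Lam N x a - ℓ) * (Lam N x c - ℓ))) := by
      refine (er1 _ x (by simp [g])).trans (sum_congr rfl fun a ha => ?_)
      refine (er1 _ x (by simp [g])).trans (sum_congr rfl fun c hc => ?_)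
      simp only [g, if_pos (And.intro (mem_erase.1 ha).1 (mem_erase.1 hc).1), Lam_symm N _ x]
      ring
    rw [this, vr _ (fun a => Lam N x a - ℓ) z, c]
  have e2 : ∀ a, ∑ c, ∑ x, g x a c ≤ (v - 1) * (2 * (r * k - r)) := by
    intro a
    rw [er1 _ a (by simp [g]), ← c a, ← nsmul_eq_mul]
    refine sum_le_card_nsmul _ _ _ fun c hc => le_trans (le_of_eq ?_) (K a c (mem_erase.1 hc).1.symm)
    exact (er2 _ a c (by simp [g]) (by simp [g])).trans (sum_congr rfl fun x hx =>
      if_pos ⟨(mem_erase.1 (mem_erase.1 hx).2).1.symm, (mem_erase.1 hx).1.symm⟩)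
  have e3 := sum_le_card_nsmul univ _ _ fun a _ => e2 a
  rw [sum_congr rfl fun a _ => sum_comm, sum_comm, card_univ, nsmul_eq_mul, ← hv] at e3
  simp only [e1, ← mul_sum] at e3
  refine le_of_mul_le_mul_left ?_ (show 0 < 2 * (v - 1) by linarith)
  linarith

omit [DecidableEq B] in
lemma eig1 {r k μ v : ℝ} {N : Matrix V B ℝ} (h : Des r k N) (hv : v = Fintype.card V)
    (h1 : μ ≤ r * k - r) (h2 : v * (r * k - r) / 2 ≤ (r * k - r - μ) ^ 2) (h3 : 0 ≤ r * k - r)
    (K : ∀ a c, a ≠ c →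
      ∑ x ∈ (univ.erase a).erase c, (Lam N a x - Lam N c x) ^ 2 ≤ 2 * (r * k - r))
    (z : V → ℝ) (η : ℝ) (z0 : z ≠ 0) (zs : ∑ a, z a = 0) (e : Lam N *ᵥ z = η • z) :
    μ ≤ r * k - η := by
  obtain ⟨x0, hx⟩ := Function.ne_iff.1 z0
  obtain ⟨a, -, ha⟩ := exists_max_image univ z ⟨x0, mem_univ _⟩
  obtain ⟨c, -, hc⟩ := exists_min_image univ z ⟨x0, mem_univ _⟩
  have b : ∑ x, z x ^ 2 ≤ v * (z a - z c) ^ 2 / 4 := by
    have := sum_le_sum (s := univ) (f := fun x => z x ^ 2)
      (g := fun x => (z a + z c) * z x + (z a - z c) ^ 2 / 4) fun x hx => by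
        nlinarith [mul_nonneg (sub_nonneg.2 (ha x hx)) (sub_nonneg.2 (hc x hx)), sq_nonneg (z a + z c)]
    simp only [sum_add_distrib, ← mul_sum, zs, sum_const, card_univ, nsmul_eq_mul, ← hv] at this
    linarith
  have p : 0 < z a - z c := by
    refine lt_of_le_of_ne (sub_nonneg.2 (ha c (mem_univ _))) fun e => hx ?_
    rw [← e] at b
    have := single_le_sum (f := fun x => z x ^ 2) (fun x _ => sq_nonneg _) (mem_univ x0)
    exact pow_eq_zero_iff two_ne_zero |>.1 (le_antisymm (by linarith) (sq_nonneg _))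
  have ac : a ≠ c := fun e => by rw [e, sub_self] at p; exact lt_irrefl _ p
  have t : ∑ x, (Lam N a x - Lam N c x) * z x = η * (z a - z c) := by
    have e1 := congrFun e a
    have e2 := congrFun e c
    simp only [mulVec, dotProduct, Pi.smul_apply, smul_eq_mul] at e1 e2
    simp only [sub_mul, sum_sub_distrib, e1, e2]; ring
  rw [← add_sum_erase _ _ (mem_univ a), ← add_sum_erase _ _ (mem_erase.2 ⟨ac.symm, mem_univ c⟩),
    h.dg, h.dg, Lam_symm N c a] at t
  have cs := sum_mul_sq_le_sq_mul_sq ((univ.erase a).erase c) (fun x => Lam N a x - Lam N c x) z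
  have b' : ∑ x ∈ (univ.erase a).erase c, z x ^ 2 ≤ v * (z a - z c) ^ 2 / 4 :=
    (sum_le_univ_sum_of_nonneg fun x => sq_nonneg _).trans b
  have c2 := cs.trans (mul_le_mul (K a c ac) b' (sum_nonneg fun _ _ => sq_nonneg _) (by linarith))
  have c3 : ∑ x ∈ (univ.erase a).erase c, (Lam N a x - Lam N c x) * z x ≤
      (r * k - r - μ) * (z a - z c) := by
    refine le_of_sq_le_sq (c2.trans ?_) (mul_nonneg (by linarith) p.le)
    rw [mul_pow]
    nlinarith [mul_le_mul_of_nonneg_right h2 (sq_nonneg (z a - z c))]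
  have := h.nn a c
  refine le_of_mul_le_mul_right ?_ p
  nlinarith [mul_nonneg this p.le]

omit [DecidableEq B] in
lemma eig2 {r k β v : ℝ} {N : Matrix V B ℝ} (h : Des r k N) (hv : v = Fintype.card V)
    (K : ∀ a c, a ≠ c → β ≤ Lam N a c)
    (z : V → ℝ) (η : ℝ) (z0 : z ≠ 0) (zs : ∑ a, z a = 0) (e : Lam N *ᵥ z = η • z) :
    β * v ≤ r * k - η := by
  obtain ⟨x0, hx⟩ := Function.ne_iff.1 z0
  obtain ⟨a, -, ha⟩ := exists_max_image univ z ⟨x0, mem_univ _⟩
  have p : 0 < z a := by
    by_contra n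
    exact hx ((sum_eq_zero_iff_of_nonpos fun x hx => (ha x hx).trans (not_lt.1 n)).1 zs x0 (mem_univ _))
  have e1 := congrFun e a
  simp only [mulVec, dotProduct, Pi.smul_apply, smul_eq_mul] at e1
  have := sum_le_sum (s := univ) (f := fun x => Lam N a x * z x)
    (g := fun x => (Lam N a x - β) * z a + β * z x) fun x hx => by
      by_cases e : a = x
      · rw [e]; linarith
      · nlinarith [mul_nonneg (sub_nonneg.2 (K a x e)) (sub_nonneg.2 (ha x hx))]
  simp only [sum_add_distrib, sum_sub_distrib, ← mul_sum, ← sum_mul, zs, sum_const, card_univ,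
    nsmul_eq_mul, ← hv, h.rs, e1] at this
  refine le_of_mul_le_mul_right ?_ p
  linarith

end Pool.Agent.H.MP_b24dd2_co
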