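import Pool.Agent.H.MP_b24dd2_co.B

set_option autoImplicit false

open Finset Matrix

namespace Pool.Agent.H.MP_b24dd2_co

lemma ex {v b k r : ℕ} (k0 : 0 < k) (kv : k ≤ v) (h : v * r = b * k) :
    ∃ N : Matrix (Fin v) (Fin b) ℝ, Des r k N := by
  let F : ℕ → ℕ → ℕ := fun i j => #{t ∈ range (b * k) | t % v = i ∧ t / k = j}
  refine ⟨fun i j => F i j, fun i j => ?_, fun i => ?_, fun j => ?_⟩
  · have : F i j ≤ 1 := card_le_one.2 fun s hs t ht => by
      have hs := (mem_filter.1 hs).2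
      have ht := (mem_filter.1 ht).2
      refine Nat.ModEq.eq_of_abs_lt (m := v) (hs.1.trans ht.1.symm) ?_
      have a := Nat.div_add_mod s k
      have b := Nat.div_add_mod t k
      have := Nat.mod_lt s k0
      have := Nat.mod_lt t k0
      rw [hs.2] at a; rw [ht.2] at b
      rw [abs_lt]; constructor <;> omega
    rcases Nat.le_one_iff_eq_zero_or_eq_one.1 this with e | e <;> simp [e]
  · rw [← Nat.cast_sum, Fin.sum_univ_eq_sum_range (F i) b]
    simp only [F, ← filter_filter]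
    rw [← card_eq_sum_card_fiberwise fun t ht =>
      mem_coe.2 (mem_range.2 (Nat.div_lt_of_lt_mul (mul_comm b k ▸ mem_range.1 (mem_filter.1 ht).1)))]
    have := Nat.count_modEq_card (b * k) (k0.trans_le kv) i
    rw [Nat.count_eq_card_filter_range, ← h, Nat.mul_div_cancel_left _ (k0.trans_le kv),
      Nat.mul_mod_right] at this
    simpa [Nat.ModEq, Nat.mod_eq_of_lt i.2, h] using this
  · rw [← Nat.cast_sum, Fin.sum_univ_eq_sum_range (fun i => F i j) v]
    simp only [F, and_comm (a := _ % _ = _), ← filter_filter]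
    rw [← card_eq_sum_card_fiberwise fun t _ => mem_coe.2 (mem_range.2 (Nat.mod_lt _ (k0.trans_le kv)))]
    have : {t ∈ range (b * k) | t / k = j} = Ico (j * k) (j * k + k) := by
      ext t
      have := Nat.mul_le_mul_right k (Nat.succ_le_of_lt j.2)
      rw [mem_filter, mem_range, mem_Ico, Nat.div_eq_iff k0]
      rw [Nat.succ_mul] at this
      omega
    simp [this]

variable {V B : Type} [Fintype V] [DecidableEq V] [Fintype B] [DecidableEq B]

omit [DecidableEq V] [DecidableEq B] in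
lemma mini {r k : ℝ} (h : ∃ N : Matrix V B ℝ, Des r k N) :
    ∃ N : Matrix V B ℝ, Des r k N ∧ ∀ M : Matrix V B ℝ, Des r k M → Phi N ≤ Phi M := by
  refine Set.exists_min_image {N | Des r k N} Phi ?_ h
  refine (Set.Finite.pi' fun _ : V => Set.Finite.pi' fun _ : B =>
    (Set.toFinite ({0, 1} : Set ℝ))).subset fun N hN i j => hN.bin i j

omit [DecidableEq B] in
lemma fin2 {r k β δ μ S v : ℝ} {N : Matrix V B ℝ} (h : Des r k N) (hv : v = Fintype.card V)
    (v1 : 1 < v) (b0 : 0 < β) (d0 : 0 < δ) (r0 : 0 < r) (e : r * k - r = β * (v - 1) + δ)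
    (h0 : 0 < μ) (h1 : μ ≤ (r * k - r) / (v - 1) * v)
    (eig : ∀ (z : V → ℝ) (η : ℝ), z ≠ 0 → ∑ a, z a = 0 → Lam N *ᵥ z = η • z → μ ≤ r * k - η)
    (hS : ∑ a, ∑ c ∈ univ.erase a, (Lam N a c - (r * k - r) / (v - 1)) ^ 2 ≤ S)
    (c : β * S < δ * ((r * k - r) / (v - 1)) * v * μ) :
    ∃ M : Matrix V B ℕ, (∀ i, (∑ j, M i j : ℕ) = r) ∧ (∀ j, (∑ i, M i j : ℕ) = k) ∧ (∀ i j, M i j ≤ 1) ∧
      ((1 : Matrix V V ℝ) - (1 / (r * k)) • (M.map (Nat.cast : ℕ → ℝ) * (M.map (Nat.cast : ℕ → ℝ))ᵀ)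
        + (1 / v) • Matrix.of (fun _ _ => (1 : ℝ))).det ≠ 0 ∧
      β * v / (r * k) < (v - 1) / (((1 : Matrix V V ℝ) - (1 / (r * k)) •
        (M.map (Nat.cast : ℕ → ℝ) * (M.map (Nat.cast : ℕ → ℝ))ᵀ)
        + (1 / v) • Matrix.of (fun _ _ => (1 : ℝ)))⁻¹.trace - 1) := by
  let M : Matrix V B ℕ := fun i j => if N i j = 1 then 1 else 0
  have m : ∀ i j, (M i j : ℝ) = N i j := fun i j => by rcases h.bin i j with e | e <;> simp [M, e]
  have l : M.map (Nat.cast : ℕ → ℝ) * (M.map (Nat.cast : ℕ → ℝ))ᵀ = Lam N := by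
    ext a c; simp [mul_apply, m, Lam]
  have w : 0 < v - 1 := by linarith
  have p : 0 < β * (v - 1) := by positivity
  set ℓ := (r * k - r) / (v - 1)
  have hl : r * k - r = ℓ * (v - 1) := by simp only [ℓ]; field_simp
  have l0 : 0 < ℓ := div_pos (by linarith) w
  have R0 : 0 < r * k := by linarith
  obtain ⟨a1, a2, a3⟩ := fin (Lam N) (Lam_symm N) hv v1 R0 l0 h0 h1 hl h.rs h.dg eig hS
  refine ⟨M, fun i => by simp [m, h.row], fun j => by simp [m, h.col],
    fun i j => by simp only [M]; split_ifs <;> simp, l ▸ a1, ?_⟩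
  rw [l, lt_div_iff₀ a2]
  refine (mul_le_mul_of_nonneg_left a3 (by positivity)).trans_lt ?_
  generalize r * k = R at R0
  have : β * v / R * (R * ((v - 1) / (ℓ * v) + S / ((ℓ * v) ^ 2 * μ))) =
      (β * (v - 1) * ℓ * v * μ + β * S) / (ℓ ^ 2 * v * μ) := by field_simp
  rw [this, div_lt_iff₀ (by positivity)]
  have : δ = (ℓ - β) * (v - 1) := by linarith
  rw [this] at c
  linarith

omit [DecidableEq B] in
lemma two {r δ β : ℝ} (N : Matrix V B ℕ) (σ : Equiv.Perm V) (hσ : ∀ i, σ i ≠ i)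
    (h1 : ∀ i, (∑ j, N i j : ℕ) = r) (h2 : ∀ j, ∑ i, N i j = 2)
    (h3 : ∀ a, ∑ j, (N a j : ℝ) * N a j = r + δ)
    (h4 : ∀ a c, a ≠ c → ∑ j, (N a j : ℝ) * N c j = β) :
    ∃ M : Matrix V B ℝ, Des r 2 M ∧ ∀ a c, a ≠ c → β ≤ Lam M a c := by
  have t : ∀ a c j, a ≠ c → N a j + N c j ≤ 2 := fun a c j h => by
    rw [← h2 j, ← sum_pair (f := fun i => N i j) h]
    exact sum_le_univ_sum_of_nonneg fun _ => Nat.zero_le _
  let f : V → B → ℝ := fun i j => if N i j = 0 then 0 else 1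
  let g : V → B → ℝ := fun i j => if N i j = 2 then 1 else 0
  have e : ∀ i j, f i j = N i j - g i j ∧ (N i j : ℝ) * N i j = N i j + 2 * g i j := fun i j => by
    have := t i (σ i) j (hσ i).symm
    have : N i j = 0 ∨ N i j = 1 ∨ N i j = 2 := by omega
    rcases this with h | h | h <;> simp [f, g, h] <;> norm_num
  have s : ∀ a, ∑ j, g a j = δ / 2 := fun a => by
    have := h3 a
    have h := h1 a
    push_cast at h
    simp only [(e _ _).2, sum_add_distrib, ← mul_sum, h] at this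
    linarith
  refine ⟨Matrix.of fun i j => f i j + g (σ i) j, ⟨fun i j => ?_, fun i => ?_, fun j => ?_⟩,
    fun a c h => ?_⟩
  · have := t i (σ i) j (hσ i).symm
    simp only [of_apply, f, g]
    split_ifs <;> simp
    omega
  · have h := h1 i
    push_cast at h
    simp only [of_apply, (e _ _).1, sum_add_distrib, sum_sub_distrib, s, h]
    ring
  · have h : ∑ i, (N i j : ℝ) = 2 := by exact_mod_cast h2 j
    simp only [of_apply, (e _ _).1, sum_add_distrib, sum_sub_distrib, h,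
      Equiv.sum_comp σ fun i => g i j]
    ring
  · rw [← h4 a c h]
    refine sum_le_sum fun j _ => ?_
    have := t a c j h
    have : N a j = 0 ∨ N c j = 0 ∨ (N a j = 1 ∧ N c j = 1) := by omega
    simp only [of_apply, f, g]
    rcases this with h | h | ⟨h, h'⟩
    · rw [h]; simp only [Nat.cast_zero, zero_mul]; positivity
    · rw [h]; simp only [Nat.cast_zero, mul_zero]; positivity
    · rw [h, h']; split_ifs <;> simp_all <;> norm_num

omit [DecidableEq B] in
lemma Sbd2 {r k β δ v : ℝ} {N : Matrix V B ℝ} (h : Des r k N) (hv : v = Fintype.card V) (v1 : 1 < v)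
    (d0 : 0 < δ) (e : r * k - r = β * (v - 1) + δ) (K : ∀ a c, a ≠ c → β ≤ Lam N a c) :
    ∑ a, ∑ c ∈ univ.erase a, (Lam N a c - (r * k - r) / (v - 1)) ^ 2 ≤ v * δ ^ 2 := by
  have w : 0 < v - 1 := by linarith
  have l : (r * k - r) / (v - 1) = β + δ / (v - 1) := by rw [e]; field_simp
  rw [l, hv, ← card_univ, ← nsmul_eq_mul]
  refine sum_le_card_nsmul _ _ _ fun x _ => ?_
  rw [card_univ, ← hv]
  have c : (#(univ.erase x) : ℝ) = v - 1 := by
    rw [card_erase_of_mem (mem_univ _), card_univ, Nat.cast_sub (Fintype.card_pos_iff.2 ⟨x⟩), hv]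
    simp
  have z : ∑ c ∈ univ.erase x, (Lam N x c - β) = δ := by
    rw [sum_sub_distrib, sum_const, nsmul_eq_mul, c, sum_erase_eq_sub (mem_univ _), h.rs, h.dg]
    linarith
  have n : ∀ c ∈ univ.erase x, 0 ≤ Lam N x c - β := fun c hc =>
    sub_nonneg.2 (K x c (mem_erase.1 hc).1.symm)
  set t := δ / (v - 1)
  have t0 : 0 < t := div_pos d0 w
  have t1 : (v - 1) * t = δ := by simp only [t]; field_simp
  have := sum_le_sum (s := univ.erase x) (f := fun c => (Lam N x c - (β + t)) ^ 2)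
    (g := fun c => (δ - 2 * t) * (Lam N x c - β) + t ^ 2) fun c hc => by
      have := single_le_sum n hc
      nlinarith [mul_le_mul_of_nonneg_right (z ▸ this) (n c hc)]
  rw [sum_add_distrib, ← mul_sum, z, sum_const, nsmul_eq_mul, c] at this
  nlinarith

end Pool.Agent.H.MP_b24dd2_co
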